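import Pool.Agent.helper69.MU.Defs

set_option autoImplicit false

/-!
# Project MU, modules M6a (diagonal property of selective ultrafilters) and M8b (greedy colouring)
-/

namespace Pool.Agent.helper7.MU

open Finset Filter
open Pool.Agent.helper69.MU (Selective)

theorem finite_notMem {U : Ultrafilter ℕ} (hU : ∀ n : ℕ, ({n} : Set ℕ) ∉ U) {s : Set ℕ} (h : s.Finite) :
    s ∉ U := by
  intro hs
  obtain ⟨x, -, hx⟩ := Ultrafilter.eq_pure_of_finite_mem h hs
  refine hU x ?_
  rw [hx]
  exact Set.mem_singleton x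

theorem gt_mem {U : Ultrafilter ℕ} (hU : ∀ n : ℕ, ({n} : Set ℕ) ∉ U) (k : ℕ) : {n : ℕ | k < n} ∈ U := by
  have h := finite_notMem hU (Set.finite_Iic k)
  rw [← Ultrafilter.compl_mem_iff_notMem] at h
  refine Filter.mem_of_superset h fun n hn => ?_
  simpa using hn

/-- the diagonal property of selective ultrafilters -/
theorem diag {U : Ultrafilter ℕ} (hU : ∀ n : ℕ, ({n} : Set ℕ) ∉ U) (hs : Selective U)
    (B : ℕ → Set ℕ) (hB : ∀ k, B k ∈ U) :
    ∃ K ∈ U, ∀ k ∈ K, ∀ k' ∈ K, k < k' → k' ∈ B k := by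
  classical
  -- decreasing sets
  set B' : ℕ → Set ℕ := fun k => {n | k < n ∧ ∀ i ≤ k, n ∈ B i} with hB'
  have hB'U : ∀ k, B' k ∈ U := by
    intro k
    have h1 : {n : ℕ | ∀ i ≤ k, n ∈ B i} ∈ U := by
      induction k with
      | zero =>
        refine Filter.mem_of_superset (hB 0) fun n hn i hi => ?_
        have : i = 0 := by omega
        rw [this]
        exact hn
      | succ k ih =>
        refine Filter.mem_of_superset (Filter.inter_mem ih (hB (k + 1))) fun n hn i hi => ?_
        rcases Nat.lt_or_ge i (k + 1) with h | h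
        · exact hn.1 i (by omega)
        · have : i = k + 1 := by omega
          rw [this]
          exact hn.2
    exact Filter.inter_mem (gt_mem hU k) h1
  have hex : ∀ n, ∃ k, n ∉ B' k := fun n => ⟨n, fun h => lt_irrefl _ h.1⟩
  set f : ℕ → ℕ := fun n => Nat.find (hex n) with hf
  have hf1 : ∀ n, n ∉ B' (f n) := fun n => Nat.find_spec (hex n)
  have hf2 : ∀ n k, k < f n → n ∈ B' k := fun n k hk => not_not.1 (Nat.find_min (hex n) hk)
  obtain ⟨A, hA, hA2⟩ := hs f
  have hinj : Set.InjOn f A := by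
    rcases hA2 with ⟨c, hc⟩ | h
    · exfalso
      obtain ⟨n, hn1, hn2⟩ := (Ultrafilter.nonempty_of_mem (Filter.inter_mem hA (hB'U c)))
      have := hf1 n
      rw [hc n hn1] at this
      exact this hn2
    · exact h
  have hG : ∀ k, ∃ G, ∀ n ∈ A, f n ≤ k → n ≤ G := by
    intro k
    have hfin : {n ∈ A | f n ≤ k}.Finite := by
      refine Set.Finite.of_finite_image ((Set.finite_Iic k).subset ?_)
        (hinj.mono fun n hn => hn.1)
      rintro _ ⟨n, hn, rfl⟩
      exact hn.2
    obtain ⟨G, hG⟩ := hfin.bddAbove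
    exact ⟨G, fun n hn hk => hG ⟨hn, hk⟩⟩
  choose G hG using hG
  -- intervals
  set N : ℕ → ℕ := fun i => Nat.rec 0 (fun _ m => max (m + 1) (G m + 1)) i with hN
  have hNs : ∀ i, N (i + 1) = max (N i + 1) (G (N i) + 1) := fun i => rfl
  have hNlt : ∀ i, N i < N (i + 1) := by
    intro i
    rw [hNs]
    exact lt_of_lt_of_le (Nat.lt_succ_self _) (le_max_left _ _)
  have hNG : ∀ i, G (N i) < N (i + 1) := by
    intro i
    rw [hNs]
    exact lt_of_lt_of_le (Nat.lt_succ_self _) (le_max_right _ _)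
  have hNge : ∀ i, i ≤ N i := by
    intro i
    induction i with
    | zero => exact Nat.zero_le _
    | succ i ih => exact lt_of_le_of_lt ih (hNlt i)
  have hmono : Monotone N := monotone_nat_of_le_succ fun i => (hNlt i).le
  have hex2 : ∀ n, ∃ i, n < N (i + 1) := fun n => ⟨n, lt_of_lt_of_le (Nat.lt_succ_self n) (hNge _)⟩
  set h : ℕ → ℕ := fun n => Nat.find (hex2 n) with hh
  have hh1 : ∀ n, n < N (h n + 1) := fun n => Nat.find_spec (hex2 n)
  have hh2 : ∀ n i, i < h n → N (i + 1) ≤ n := fun n i hi => not_lt.1 (Nat.find_min (hex2 n) hi)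
  have hh3 : ∀ n i, n < N (i + 1) → h n ≤ i := fun n i hi => Nat.find_min' (hex2 n) hi
  obtain ⟨A', hA', hA2'⟩ := hs h
  have hinj' : Set.InjOn h A' := by
    rcases hA2' with ⟨c, hc⟩ | h'
    · exfalso
      refine finite_notMem hU (s := A') ((Set.finite_Iio (N (c + 1))).subset fun n hn => ?_) hA'
      have := hh1 n
      rw [hc n hn] at this
      exact this
    · exact h'
  -- parity
  obtain ⟨P, hPU, hP⟩ : ∃ P ∈ U, ∀ k ∈ P, ∀ k' ∈ P, (Even (h k) ↔ Even (h k')) := by
    rcases Ultrafilter.mem_or_compl_mem U {n | Even (h n)} with h1 | h1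
    · exact ⟨_, h1, fun k hk k' hk' => ⟨fun _ => hk', fun _ => hk⟩⟩
    · exact ⟨_, h1, fun k hk k' hk' => ⟨fun h2 => absurd h2 hk, fun h2 => absurd h2 hk'⟩⟩
  refine ⟨A ∩ A' ∩ P, Filter.inter_mem (Filter.inter_mem hA hA') hPU, ?_⟩
  rintro k ⟨⟨hkA, hkA'⟩, hkP⟩ k' ⟨⟨hkA2, hkA2'⟩, hkP'⟩ hkk
  have h1 : h k ≤ h k' := hh3 k _ (hkk.trans (hh1 k'))
  have h2 : h k ≠ h k' := fun he => hkk.ne (hinj' hkA' hkA2' he)
  have h3 := hP k hkP k' hkP'
  have h4 : h k + 2 ≤ h k' := by
    by_contra h5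
    have h6 : h k' = h k + 1 := by omega
    rw [h6, Nat.even_add_one] at h3
    tauto
  have h5 : N (h k + 1 + 1) ≤ k' := hh2 k' (h k + 1) (by omega)
  have h6 : k < f k' := by
    by_contra h7
    have h8 : k' ≤ G (N (h k + 1)) := hG _ k' hkA2 ((not_lt.1 h7).trans (hh1 k).le)
    have h9 := hNG (h k + 1)
    omega
  exact (hf2 k' k h6).2 k le_rfl

/-- strong recursion for a colouring -/
theorem exists_colouring (S : ∀ n : ℕ, (∀ m, m < n → Bool) → Bool) :
    ∃ c : ℕ → Bool, ∀ n, c n = S n fun m _ => c m := by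
  refine ⟨WellFounded.fix Nat.lt_wfRel.wf S, fun n => ?_⟩
  exact WellFounded.fix_eq _ _ _

theorem katetov {U : Ultrafilter ℕ} (hU : ∀ n : ℕ, ({n} : Set ℕ) ∉ U) (hs : Selective U)
    (l : ∀ n : ℕ, Fin n → ℕ)
    (h : ∀ B : Set ℕ, B ∉ U → ∀ ε : ℝ, 0 < ε →
      ∀ᶠ n in (U : Filter ℕ), (Nat.card {j : Fin n // l n j ∈ B} : ℝ) ≤ ε * n) :
    ∀ ε : ℝ, 0 < ε → ∀ᶠ n in (U : Filter ℕ), (Nat.card {j : Fin n // l n j ≠ n} : ℝ) ≤ ε * n := by
  classical
  have hcard : ∀ (n : ℕ) (p : Fin n → Prop) [DecidablePred p],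
      (univ.filter p).card = Nat.card {j : Fin n // p j} := by
    intro n p _
    rw [Nat.card_eq_fintype_card, Fintype.card_subtype]
  intro ε hε
  -- bounds
  have hg : ∀ n, ∃ g, ∀ j, l n j ≤ g := fun n => ⟨univ.sup (l n), fun j => le_sup (mem_univ j)⟩
  choose g hg using hg
  obtain ⟨K, hK, hK2⟩ := diag hU hs (fun k => {n | g k < n}) fun k => gt_mem hU _
  -- the colouring
  obtain ⟨c, hc⟩ := exists_colouring fun n ih => decide
    ((univ.filter fun j : Fin n => l n j ∈ K ∧ ∃ hl : l n j < n, ih (l n j) hl = true).card ≤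
      (univ.filter fun j : Fin n => l n j ∈ K ∧ ∃ hl : l n j < n, ih (l n j) hl = false).card)
  have hsimp : ∀ (n : ℕ) (b : Bool),
      (univ.filter fun j : Fin n => l n j ∈ K ∧ ∃ _ : l n j < n, c (l n j) = b) =
        univ.filter fun j : Fin n => l n j ∈ K ∧ l n j < n ∧ c (l n j) = b := by
    intro n b
    refine filter_congr fun j _ => ?_
    simp only [exists_prop]
  have hmaj : ∀ (n : ℕ) (b : Bool), c n = b →
      (univ.filter fun j : Fin n => l n j ∈ K ∧ l n j < n ∧ c (l n j) = b).card ≤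
        (univ.filter fun j : Fin n => l n j ∈ K ∧ l n j < n ∧ c (l n j) = !b).card := by
    intro n b hb
    have h1 := hc n
    rw [hb] at h1
    simp only [hsimp] at h1
    cases b with
    | true =>
      have h2 := of_decide_eq_true h1.symm
      exact h2
    | false =>
      have h2 := of_decide_eq_false h1.symm
      exact (not_le.1 h2).le
  -- one colour is in `U`
  obtain ⟨b, hb⟩ : ∃ b : Bool, {n | c n = b} ∈ U := by
    rcases Ultrafilter.mem_or_compl_mem U {n | c n = true} with h1 | h1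
    · exact ⟨true, h1⟩
    · refine ⟨false, Filter.mem_of_superset h1 fun n hn => ?_⟩
      have : ¬ (c n = true) := hn
      simpa using this
  have hB1 : {m : ℕ | c m = !b} ∉ U := by
    intro h1
    obtain ⟨m, hm1, hm2⟩ := Ultrafilter.nonempty_of_mem (Filter.inter_mem hb h1)
    have h2 : c m = b := hm1
    have h3 : c m = !b := hm2
    rw [h2] at h3
    cases b <;> simp at h3
  have hB2 : Kᶜ ∉ U := by
    rw [Ultrafilter.compl_notMem_iff]
    exact hK
  have hK' : ∀ᶠ n in (U : Filter ℕ), n ∈ K := hK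
  have hb' : ∀ᶠ n in (U : Filter ℕ), c n = b := hb
  filter_upwards [h _ hB1 (ε / 4) (by positivity), h _ hB2 (ε / 2) (by positivity), hK', hb']
    with n h1 h2 h3 h4
  rw [← hcard n fun j => l n j ≠ n]
  have h5 := hmaj n b h4
  have h6 : (univ.filter fun j : Fin n => l n j ∈ K ∧ l n j < n ∧ c (l n j) = !b).card ≤
      (univ.filter fun j : Fin n => l n j ∈ {m : ℕ | c m = !b}).card :=
    card_le_card fun j hj => by
      rw [mem_filter] at hj ⊢
      exact ⟨hj.1, hj.2.2.2⟩
  have h7 : (univ.filter fun j : Fin n => l n j ≠ n).card ≤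
      (univ.filter fun j : Fin n => l n j ∈ Kᶜ).card +
      ((univ.filter fun j : Fin n => l n j ∈ K ∧ l n j < n ∧ c (l n j) = b).card +
        (univ.filter fun j : Fin n => l n j ∈ K ∧ l n j < n ∧ c (l n j) = !b).card) := by
    refine (card_le_card (fun j hj => ?_)).trans ((card_union_le _ _).trans
      (Nat.add_le_add_left (card_union_le _ _) _))
    rw [mem_filter] at hj
    simp only [mem_union, mem_filter, mem_univ, true_and, Set.mem_compl_iff]
    by_cases hjK : l n j ∈ K
    · have h8 : l n j < n := by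
        rcases lt_trichotomy (l n j) n with h9 | h9 | h9
        · exact h9
        · exact absurd h9 hj.2
        · exfalso
          have h10 : g n < l n j := hK2 n h3 (l n j) hjK h9
          exact absurd (hg n j) (not_le.2 h10)
      right
      cases hcj : c (l n j) <;> cases b <;> simp [hjK, h8]
    · exact Or.inl hjK
  have h8 : (univ.filter fun j : Fin n => l n j ≠ n).card ≤
      (univ.filter fun j : Fin n => l n j ∈ Kᶜ).card +
        2 * (univ.filter fun j : Fin n => l n j ∈ {m : ℕ | c m = !b}).card := by omega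
  have h9 : ((univ.filter fun j : Fin n => l n j ≠ n).card : ℝ) ≤
      ((univ.filter fun j : Fin n => l n j ∈ Kᶜ).card : ℝ) +
        2 * ((univ.filter fun j : Fin n => l n j ∈ {m : ℕ | c m = !b}).card : ℝ) := by
    exact_mod_cast h8
  have h1' : ((univ.filter fun j : Fin n => l n j ∈ {m : ℕ | c m = !b}).card : ℝ) ≤ ε / 4 * n := by
    rw [hcard]
    exact h1
  have h2' : ((univ.filter fun j : Fin n => l n j ∈ Kᶜ).card : ℝ) ≤ ε / 2 * n := by
    rw [hcard]
    exact h2
  linarith

end Pool.Agent.helper7.MU
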